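import Pool.Agent.U407.NP7

/-!
The surfaces `y ^ p - y = f(x, t)` over a finite field of characteristic `p`: the generalized
eigenspaces of Frobenius on the second cohomology, and a family for which Frobenius is semisimple.
-/

set_option autoImplicit false
set_option maxHeartbeats 1000000

open Polynomial Module

namespace Pool.Agent.Results.MP_1fe969_ag.ArtinSchreierSurfaces

section defs

variable {κ : Type} [Field κ]

/-- The polynomial `f` in `x` (outer variable) and `t` (inner variable) has the form
`f = u x ^ a + w t ^ b + (terms with x ^ m t ^ n for which b m + a n < a b)`, `u, w ≠ 0`. -/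
structure HasLeadingExponents (a b : ℕ) (f : κ[X][X]) : Prop where
  pos_a : a ≠ 0
  pos_b : b ≠ 0
  coeff_x : (f.coeff a).coeff 0 ≠ 0
  coeff_t : (f.coeff 0).coeff b ≠ 0
  rest : ∀ m n, (f.coeff m).coeff n ≠ 0 →
    (m = a ∧ n = 0) ∨ (m = 0 ∧ n = b) ∨ b * m + a * n < a * b

/-- The number of points `v = (t, x, y)` over an algebraic closure of `κ` of the surface
`y ^ p - y = f(x, t)` with `t ^ Q = t`, `x ^ Q = x`, `y ^ Q = y + i`. -/
noncomputable def fixedPoints (p : ℕ) (f : κ[X][X]) (Q i : ℕ) : ℕ :=
  Nat.card {v : AlgebraicClosure κ × AlgebraicClosure κ × AlgebraicClosure κ //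
    v.1 ^ Q = v.1 ∧ v.2.1 ^ Q = v.2.1 ∧ v.2.2 ^ Q = v.2.2 + (i : AlgebraicClosure κ) ∧
    v.2.2 ^ p - v.2.2 =
      f.eval₂ (eval₂RingHom (algebraMap κ (AlgebraicClosure κ)) v.1) v.2.1}

/-- The known properties of Frobenius `Φ` and of the automorphism `g` induced by the translation of
`y` on the second cohomology with compact supports `V` of the affine surface
`y ^ p - y = f(x, t)`: they commute, `g ^ p = 1`, there are no invariants, the Lefschetz trace
formula holds and `V` is pure of weight two. -/
structure IsCohomology (p : ℕ) (f : κ[X][X]) {V : Type} [AddCommGroup V] [Module ℂ V]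
    (Φ g : Module.End ℂ V) : Prop where
  comm : Commute Φ g
  order : g ^ p = 1
  invariants : ∀ v, g v = v → v = 0
  trace : ∀ m i, m ≠ 0 → i < p → LinearMap.trace ℂ V (Φ ^ m * g ^ i) =
    (fixedPoints p f (Nat.card κ ^ m) i : ℂ) - ((Nat.card κ : ℂ) ^ m) ^ 2
  pure : ∀ α, Φ.HasEigenvalue α → ‖α‖ = (Nat.card κ : ℝ)

/-- The known properties of Frobenius `F` on the second cohomology `H` of a smooth projective
compactification of the affine surface: `W` is the span of the classes of the curves at infinity,
`ι` is the natural map from the cohomology with compact supports. -/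
structure IsCompactification (κ : Type) {V H : Type} [AddCommGroup V] [Module ℂ V]
    [AddCommGroup H] [Module ℂ H] (Φ : Module.End ℂ V) (F : Module.End ℂ H) (ι : V →ₗ[ℂ] H)
    (W : Submodule ℂ H) : Prop where
  injective : Function.Injective ι
  comm : ∀ v, ι (Φ v) = F (ι v)
  boundary : ∃ N : ℕ, N ≠ 0 ∧ ∀ w ∈ W, (F ^ N) w = (Nat.card κ : ℂ) ^ N • w
  span : W ⊔ LinearMap.range ι = ⊤

end defs

/-- **Semisimplicity of Frobenius for the surfaces `y ^ p - y = f(x, t)`.**

Let `p` be a prime, `κ` a finite field with `q` elements of characteristic `p`, let `a` and `b` divide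
`p - 1`, and let `f = u x ^ a + w t ^ b + …` in `κ[x, t]`, where `u, w ≠ 0` and the other terms
`x ^ m t ^ n` have `m / a + n / b < 1` (all of them are allowed, with any coefficients:
`HasLeadingExponents`). Let `U` be the affine surface `y ^ p - y = f(x, t)` and let `𝒳` be any smooth
projective surface over `κ` which contains `U` as the complement of a union of curves. Let `ℓ` be a
prime different from `p`, fix an isomorphism of an algebraic closure of `ℚ_ℓ` with `ℂ`, and let
`V = H ^ 2_c(U) ⊗ ℂ`, `H = H ^ 2(𝒳) ⊗ ℂ`.

`V` is the direct sum of the groups `H ^ 2_c(𝔸 ^ 2, L_ψ(f))` for the `p - 1` nontrivial additive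
characters `ψ` of `𝔽_p`, `H ^ 3_c(U) = 0`, `H ^ 1_c(U) = 0`, `H ^ 4_c(U)` has dimension one, and `V` is
pure of weight two, because the leading form `u x ^ a + w t ^ b` is nondegenerate (Deligne, Adolphson
and Sperber, Denef and Loeser); with the Lefschetz trace formula this gives `IsCohomology`. The map
`V → H` is injective, because its kernel is a quotient of the first cohomology of the boundary, of
weights at most one, and its image is the orthogonal complement of the span `W` of the classes
of the boundary curves; the intersection form is nondegenerate on `W` by the Hodge index theorem, so `H`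
is the direct sum of `W` and `V` (`IsCompactification`; Frobenius permutes the boundary curves, up
to the factor `q`).

(1) For all `m ≥ 1` and all nontrivial characters, i.e. eigenvalues `ω ≠ 1` of `g`, `ω ^ p = 1`: the
generalized eigenspaces of `Φ ^ m` on the `ω`-eigenspace of `g` (a space of dimension
`(a - 1)(b - 1)`) have dimension at most `gcd(a, b)`, and the one for the eigenvalue `q ^ m` has
dimension at most `gcd(a, b) - 1`.

(2) Let `a` and `b` be coprime. Then Frobenius is semisimple on `H ^ 2(𝒳)`, over `κ` and over all
finite extensions, and the generalized eigenspace of the `m`-th power of Frobenius for the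
eigenvalue `q ^ m` is contained in the span `W` of the classes of the curves at infinity, for all
`m ≥ 1`.

By (2) all of the semisimplicity conjecture holds for `𝒳` (the case of `H ^ 1` and `H ^ 3` is known), and
the Tate conjecture for `𝒳` over all finite extensions; the Betti numbers and the geometric genus are
not bounded.

In the proof the number of points is computed `p`-adically by Dwork's method; the traces determine the
Newton polygon for all slopes at most one, for the product over all the characters: it is equal to
the Hodge polygon, with slopes `i / a + j / b` (this equality is a theorem of Adolphson, Sperber and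
Wan, and it is proved here in Lean). The Galois group of `ℚ_p(ζ_p)` permutes the characters and
preserves the absolute values, so each character has the same slopes; complex conjugation gives the
slopes greater than one. The number of `(i, j)` with the same `i / a + j / b` is at most
`gcd(a, b)`. -/
theorem result {κ : Type} [Field κ] [Finite κ] {p : ℕ} [Fact p.Prime] [CharP κ p] {a b : ℕ}
    {f : κ[X][X]} (hf : HasLeadingExponents a b f) (ha : a ∣ p - 1) (hb : b ∣ p - 1)
    {V : Type} [AddCommGroup V] [Module ℂ V] [FiniteDimensional ℂ V] {Φ g : Module.End ℂ V}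
    (h : IsCohomology p f Φ g) :
    (∀ m : ℕ, m ≠ 0 → ∀ ω : ℂ, ω ^ p = 1 → ω ≠ 1 →
      (∀ x : ℂ, finrank ℂ ((Φ ^ m).maxGenEigenspace x ⊓ g.eigenspace ω : Submodule ℂ V) ≤
        Nat.gcd a b) ∧
      finrank ℂ ((Φ ^ m).maxGenEigenspace ((Nat.card κ : ℂ) ^ m) ⊓ g.eigenspace ω :
        Submodule ℂ V) ≤ Nat.gcd a b - 1) ∧
    (Nat.Coprime a b →
      ∀ (H : Type) [AddCommGroup H] [Module ℂ H] [FiniteDimensional ℂ H] (F : Module.End ℂ H)
        (ι : V →ₗ[ℂ] H) (W : Submodule ℂ H), IsCompactification κ Φ F ι W →
      (∀ m : ℕ, (F ^ m).IsSemisimple) ∧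
      ∀ m : ℕ, m ≠ 0 → (F ^ m).maxGenEigenspace ((Nat.card κ : ℂ) ^ m) ≤ W) := by
  classical
  have : Fintype κ := Fintype.ofFinite κ
  have hcard : Nat.card κ = Fintype.card κ := Nat.card_eq_fintype_card
  have hD : Pool.Agent.U407.NP.Dg a b f :=
    ⟨hf.pos_a, hf.pos_b, hf.coeff_x, hf.coeff_t, hf.rest⟩
  have hfix : ∀ m i, m ≠ 0 → i < p → LinearMap.trace ℂ V (Φ ^ m * g ^ i) =
      (Pool.Agent.U407.NP.fixed p f (Fintype.card κ ^ m) i : ℂ) -
        ((Fintype.card κ : ℂ) ^ m) ^ 2 := by
    intro m i hm hi
    rw [← hcard]
    exact h.trace m i hm hi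
  have hpure : ∀ α, Φ.HasEigenvalue α → ‖α‖ = (Fintype.card κ : ℝ) := by
    rw [← hcard]
    exact h.pure
  refine ⟨fun m hm ω hω hω1 => ?_, fun hab H _ _ _ F ι W hH => ?_⟩
  · rw [hcard]
    exact Pool.Agent.U407.NP.dims hD ha hb h.comm h.order h.invariants hfix hpure ω hω hω1 m hm
  · obtain ⟨hs, hev⟩ := Pool.Agent.U407.NP.semisimple hD ha hb hab h.comm h.order h.invariants
      hfix hpure
    have hq : (Nat.card κ : ℂ) ≠ 0 := by
      rw [hcard]
      exact Nat.cast_ne_zero.2 Fintype.card_ne_zero
    have hF : F.IsSemisimple := Pool.Agent.U407.NP.semisimple_of_span hq hH.comm hH.boundary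
      hH.span hs
    refine ⟨fun m => hF.pow m, fun m hm => ?_⟩
    refine Pool.Agent.U407.NP.le_of_span hH.injective hH.comm hH.boundary hH.span hF ?_ m hm
    rw [hcard]
    exact hev

end Pool.Agent.Results.MP_1fe969_ag.ArtinSchreierSurfaces
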