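import Pool.Agent.U273.FS.TwoMain

/-!
# Semisimplicity of Frobenius on the second cohomology of elliptic surfaces with a section of order two

Let `κ` be a finite field with `q` elements, `q` odd, and let `S` be **any elliptic surface over the
projective line over `κ` with a section of order two** (not constant), given by its minimal equation
`y ^ 2 = x (x ^ 2 + a(t) x + b(t))`, where `a` and `b` are forms of degree `2 d` and `4 d` on the projective
line (`Weierstrass` with `a₂ = a`, `a₄ = b`, `a₆ = 0`). The fibres are singular at the zeros of `b` and of
`Δ = a ^ 2 - 4 b`.

**Theorem.** Suppose that **`b` and `Δ` together have at most six zeros on the projective line (as closed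
points, the common ones counted twice), and that their degrees are odd and pairwise coprime**; the
multiplicities are arbitrary. Then
the Frobenius is semisimple on `H^2(S, E)` (`E` an algebraically closed field of characteristic zero, for
example an algebraic closure of `ℚ_ℓ`).

Formally: `b = u ∏_{g ∈ G} g ^ (e g)` and `Δ = v ∏_{g ∈ G'} g ^ (e' g)` with monic irreducible polynomials
`g`, and `numLine` is the number of zeros, including the point at infinity. The function `discSum` is the
sum of the values of the quadratic character at `Δ(t)`, that is the number of points of the double
covering `z ^ 2 = Δ(t)` of the projective line minus `q ^ n + 1`; by Weil it is a sum of `n`-th powers of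
algebraic integers with signs (`HasEigenvalues`).

For example, for `Δ` and `b` prime to each other and squarefree of degree `4 d` the surface `S` has
geometric genus `d - 1`, `4 d` geometric fibres of type `I₂` and `4 d` of type `I₁`, and the condition is:
`b = b₁ b₂` and `Δ = c₁ c₂` (up to constants) with irreducible polynomials of pairwise coprime odd degrees
`deg b₁ + deg b₂ = deg c₁ + deg c₂ = 4 d`, like `5 + 7 = 1 + 11` for `d = 3`. Or let
`S : y ^ 2 = x (x - f(t)) (x - g(t))` be a surface with full level two structure, `f`, `g` and `f - g` of
degree `2 d` with two irreducible factors each, of pairwise coprime odd degrees; here `Δ = (f - g) ^ 2`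
and there are exactly six zeros. The theorem only depends on the degrees of the factors, no point count
on the surface is needed. It gives the full semisimplicity (for all eigenvalues, not only for `q`) for
surfaces of arbitrary geometric genus.

The proof. By the congruence of `TwoTorsionCurve` for the surface, with the reducible curve of
`2`-torsion points, and a second one for the double covering `z ^ 2 = Δ(t)`, the characteristic
polynomial of Frobenius on the orthogonal complement `W` of the trivial lattice is
`∏_g (1 - T ^ (deg g)) / (1 - T) ^ 4` modulo `2`, where `g` runs through the zeros of `b` and those of `Δ`.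
For odd pairwise coprime degrees this is a squarefree polynomial prime to `1 + T`, times
`(1 + T) ^ (r - 4)`, `r` the number of zeros. Because of the intersection form on `W` a factor
`(1 + T) ^ 2` is allowed (`U273/FS/Ortho`): for `r = 6`, in particular for all surfaces with full level
two structure, this is essential.
-/

set_option autoImplicit false

namespace Pool.Agent.Results.MP_1fe969_ag.SectionOfOrderTwo

open Polynomial Pool.Agent.U273.FS

/-- **The Frobenius is semisimple on the second cohomology of an elliptic surface
`y ^ 2 = x (x ^ 2 + a(t) x + b(t))` if `b` and `a ^ 2 - 4 b` have at most six zeros on the projective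
line, of odd pairwise coprime degrees.** -/
theorem result (κ : Type) [Field κ] [Fintype κ] (h2 : ringChar κ ≠ 2) (S : Weierstrass κ)
    (h6 : S.a₆ = 0) (E : Type) [Field E] [CharZero E] [IsAlgClosed E] (G G' : Finset κ[X])
    (hG : IsFactored S.a₄ G) (hG' : IsFactored (S.a₂ ^ 2 - 4 * S.a₄) G')
    (hcoprime : ∀ g ∈ G, ∀ h ∈ G', Nat.Coprime g.natDegree h.natDegree)
    (hsix : numLine (4 * S.d) S.a₄ G + numLine (4 * S.d) (S.a₂ ^ 2 - 4 * S.a₄) G' ≤ 6)
    (B₁ B₂ : Multiset E) (hB : HasEigenvalues S B₁ B₂)
    (D : SecondCohomology S E) : D.FrobeniusIsSemisimple :=
  twoTorsion h2 S h6 G G' hG hG' hcoprime hsix B₁ B₂ hB D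

end Pool.Agent.Results.MP_1fe969_ag.SectionOfOrderTwo
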