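import Mathlib
import Pool.Agent.U282.PW.Pow

/-!
# Tate classes on the powers of a surface and the semisimplicity of Frobenius

Let `X` be a smooth projective surface over the field with `q` elements, `V` the space `H²(X)(1)` with
coefficients in an algebraic closure `K` of the `l`-adic numbers, `b = dim V`, and `f` the action of
Frobenius on `V`, that is, `q⁻¹` times the Frobenius of `H²(X)`. It is an isometry of the
intersection form, which is nondegenerate by Poincaré duality, and fixes the class `h` of a
hyperplane section.

The `n`-th tensor power of `V` is the Künneth component `H²(X)^{⊗ n}(n)` of `H^{2n}(X^n)(n)`. Let `t n`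
be the dimension of the space of the Tate classes in it (the eigenspace for the eigenvalue `1`),
let `m n` be the multiplicity of the eigenvalue `1` (the contribution of this component to the order
of the pole of the zeta function of `X^n` at `s = n`), and let `β n k` be the number of the Jordan
blocks of size more than `k` for the eigenvalue `1`, so that `β n 0 = t n`. Let `N` be the nilpotent
part of Frobenius on `V` and `S = ∑ k, k * rk N^k`.

*Theorem.*

1. If Frobenius is semisimple on `H²(X)` then `t n = m n` for all `n`, and `β n k = 0` for `k ≥ 1`.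
2. If not, then `S ≥ 1`, and `t n / m n ~ √(b / (π S n))` for `n → ∞`; moreover
   `√n * β n k_n / m n → √(b / (π S)) * exp (- z² b / (4 S))` and
   `β n k_n / t n → exp (- z² b / (4 S))` whenever `k_n / √n → z`.
3. So Frobenius is semisimple on `H²(X)` if for one `C > √(b / π)` and infinitely many `n` the
   algebraic cycles on `X^n` span a subspace of the component `H²(X)^{⊗ n}(n)` of dimension at least
   `C * m n / √n`. (If Frobenius is semisimple, the Tate classes satisfy this for all large `n`.)

Here the semisimplicity at all eigenvalues of Frobenius on `H²(X)` is decided by the Tate classes on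
powers, so by the eigenvalue `1` only.
-/

set_option autoImplicit false

open Module Filter

universe u v

namespace Pool.Agent.Results.MP_1fe969_ag.TateClassesOnPowers

open Pool.Agent.U282.PW

/-- Frobenius on the second cohomology of a surface, twisted so that Tate classes are fixed
vectors. -/
structure SurfaceData (K : Type u) [Field K] where
  /-- the space `H²(X)(1)` -/
  V : Type v
  [grp : AddCommGroup V]
  [mod : Module K V]
  [fin : FiniteDimensional K V]
  /-- Frobenius -/
  f : V →ₗ[K] V
  /-- the intersection form -/
  form : V →ₗ[K] V →ₗ[K] K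
  /-- Poincaré duality -/
  duality : ∀ x, (∀ y, form x y = 0) → x = 0
  /-- Frobenius preserves the intersection form -/
  isometry : ∀ x y, form (f x) (f y) = form x y
  /-- the class of a hyperplane section -/
  h : V
  h_ne : h ≠ 0
  f_h : f h = h

attribute [instance] SurfaceData.grp SurfaceData.mod SurfaceData.fin

variable {K : Type u} [Field K]

/-- Frobenius on the component `H²(X)^{⊗ n}(n)` of the cohomology of `X^n`. -/
noncomputable def SurfaceData.frob (X : SurfaceData.{u, v} K) (n : ℕ) :
    (PiTensorProduct K fun _ : Fin n => X.V) →ₗ[K] (PiTensorProduct K fun _ : Fin n => X.V) :=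
  PiTensorProduct.map fun _ => X.f

/-- The number of the Jordan blocks of size more than `k` of Frobenius for the eigenvalue `1` on the
component `H²(X)^{⊗ n}(n)`. -/
noncomputable def SurfaceData.β (X : SurfaceData.{u, v} K) (n k : ℕ) : ℕ :=
  blocks (X.frob n) {1} k

/-- The multiplicity of the eigenvalue `1` of Frobenius on the component `H²(X)^{⊗ n}(n)`. -/
noncomputable def SurfaceData.m (X : SurfaceData.{u, v} K) (n : ℕ) : ℕ := mult (X.frob n) {1}

/-- The dimension of the space of the Tate classes in the component `H²(X)^{⊗ n}(n)`. -/
noncomputable def SurfaceData.t (X : SurfaceData.{u, v} K) (n : ℕ) : ℕ := eigDim (X.frob n) {1}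

/-- **Tate classes on the powers of a surface and the semisimplicity of Frobenius.** -/
theorem result [CharZero K] [IsAlgClosed K] (X : SurfaceData.{u, v} K) :
    (∀ n, X.t n = X.β n 0) ∧
    (SS X.f → ∀ n k, X.β n k = if k = 0 then X.m n else 0) ∧
    (¬ SS X.f → 1 ≤ size X.f ∧ ∀ (kk : ℕ → ℕ) (z : ℝ),
      Tendsto (fun n : ℕ => (kk n : ℝ) / √n) atTop (nhds z) →
      Tendsto (fun n : ℕ => √n * ((X.β n (kk n) : ℝ) / (X.m n : ℝ))) atTop
        (nhds (√(finrank K X.V / (Real.pi * size X.f)) *
          Real.exp (-(z ^ 2 * finrank K X.V / (4 * size X.f))))) ∧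
      Tendsto (fun n : ℕ => (X.β n (kk n) : ℝ) / (X.β n 0 : ℝ)) atTop
        (nhds (Real.exp (-(z ^ 2 * finrank K X.V / (4 * size X.f)))))) ∧
    (∀ (a : ℕ → ℕ) (C : ℝ), (∀ n, a n ≤ X.t n) → √(finrank K X.V / Real.pi) < C →
      (∃ᶠ n in atTop, C * (X.m n : ℝ) ≤ √n * (a n : ℝ)) → SS X.f) :=
  ⟨fun _ => eigDim_eq_blocks _ _,
    isometry_law X.f X.form X.duality X.isometry X.h X.h_ne X.f_h⟩

end Pool.Agent.Results.MP_1fe969_ag.TateClassesOnPowers
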