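import Pool.Agent.U273.FS.EllMain

/-!
# Semisimplicity of Frobenius on the second cohomology of elliptic surfaces: the curve of 2-torsion points

Let `κ` be a finite field with `q` elements, `q` odd, and let `S` be **any elliptic surface with a section
over the projective line over `κ`** (not constant, that is `d ≥ 1`), given by its minimal equation
`y ^ 2 = x ^ 3 + a₂(t) x ^ 2 + a₄(t) x + a₆(t)`, where `a_i` is a form of degree `i d` on the projective
line (`Weierstrass`; `d = χ(O_S)`, so that the geometric genus is `d - 1` and the second Betti number is
`12 d - 2`). There is no condition on the singular fibres.

Let `C'` be the complete curve `x ^ 3 + a₂(t) x ^ 2 + a₄(t) x + a₆(t) = 0` on the ruled surface over the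
projective line (the curve of the points of order two of the fibres, which may be singular or
reducible), and let `P₁ / P₂` be its zeta function, `P_j = ∏_{x ∈ B_j} (1 - x T)` with integral
coefficients and constant term one (Weil, Dwork); so the number of points of `C'` over an extension `L`
is `∑_{x ∈ B₂} x ^ [L : κ] - ∑_{x ∈ B₁} x ^ [L : κ]`.

**Theorem.** Suppose that **the polynomial `H = (1 - T) ^ 2 P₁ / P₂` modulo `2` is squarefree up to a factor
`(1 + T) ^ m`, `m ≤ 2`**. Then the Frobenius is semisimple on `H^2(S, E)` (`E` an algebraically closed
field of characteristic zero, for example an algebraic closure of `ℚ_ℓ`).

If `C'` is geometrically irreducible (that is, if the generic fibre has no geometric point of order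
two) then `P₂ = (1 - T) (1 - q T)` and `H` is the reduction of the characteristic polynomial `P₁` of
Frobenius on `H^1(C')`. If in addition all singular fibres are irreducible nodal curves then `C'` is a
smooth curve of genus `6 d - 2`, and the condition is: **the characteristic polynomial of Frobenius on
the points of order two of the Jacobian of `C'` is squarefree up to a factor `(1 + T) ^ 2`**. This is a
property of the Galois action on a finite group; it holds for a positive proportion of all symplectic
similitudes over the field with two elements, as `d` grows. So the theorem gives the full
semisimplicity of Frobenius for surfaces of arbitrary geometric genus with arbitrary slopes and Hodge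
polygons (and arbitrary rank zero, one or two of the Mordell-Weil group), far from the known cases
(surfaces dominated by products of curves, K3 surfaces, surfaces with Tate conjecture for all powers).

The cohomology enters through `SecondCohomology`, a list of known properties: the intersection form,
the trivial lattice `N` and its orthogonal complement `W`, and the trace formula
`Tr(Φ^n | W) = -∑_t a_t = ∑_t ∑_x χ(x ^ 3 + a₂(t) x ^ 2 + a₄(t) x + a₆(t))` (Grothendieck, Lefschetz, Ogg,
Shafarevich).

The proof. (1) Congruence: the sums over the closed points `P` of the product of the projective and the
affine line of the quadratic character of the cubic polynomial give an Euler product for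
`det(1 - T Φ | W)`, which is modulo `2` the one for the zeta function of the open set where the cubic
polynomial is not zero; so `det(1 - T Φ | W) = (1 - T) ^ 2 P₁ / P₂ mod 2`. (The Euler product of
eigenvalues is part EC of project HS of the starting library, used there for cyclic coverings of
projective spaces; the closed points are treated abstractly in `U273/FS/Orb`, `U273/FS/Quad`.) (2) **New
is the use of the intersection form** (`U273/FS/Ortho`, `U273/FS/Semi`): a similitude of a symmetric form
with multiplier `c = q ^ 2` that is not semisimple has an eigenvalue `α = ± q` of multiplicity at least
three (a Jordan block of size two for `α ^ 2 = c` occurs an even number of times), or two eigenvalues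
`α ≠ c / α`, both of multiplicity at least two; modulo `2` this gives `(1 + T) ^ 3`, `(1 + T) ^ 4` or the
square of an irreducible polynomial prime to `1 + T`. The factor `(1 + T) ^ 2` must be allowed: it occurs
if the Jacobian of `C'` has one rational point of order two, and for all surfaces of the family in
`SectionOfOrderTwo` with six places.
-/

set_option autoImplicit false

namespace Pool.Agent.Results.MP_1fe969_ag.TwoTorsionCurve

open Polynomial Pool.Agent.U273.FS

/-- **The Frobenius is semisimple on the second cohomology of an elliptic surface if the zeta function
of the curve of `2`-torsion points is squarefree modulo `2`, up to a factor `(1 + T) ^ 2`.** -/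
theorem result (κ : Type) [Field κ] [Fintype κ] (h2 : ringChar κ ≠ 2) (S : Weierstrass κ)
    (E : Type) [Field E] [CharZero E] [IsAlgClosed E] (P₁ P₂ : ℤ[X])
    (hP : S.HasTorsionZeta E P₁ P₂) (H : (ZMod 2)[X]) (hH : IsAlmostSquarefree H)
    (hmod : H * P₂.map (Int.castRingHom (ZMod 2)) =
      (1 - X) ^ 2 * P₁.map (Int.castRingHom (ZMod 2)))
    (D : SecondCohomology S E) : D.FrobeniusIsSemisimple :=
  elliptic h2 S P₁ P₂ hP H hH hmod D

end Pool.Agent.Results.MP_1fe969_ag.TwoTorsionCurve
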